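import Pool.Agent.X43.BF.D

/-! A bounded finite-one degree consisting of a dense linearly ordered set of one-one degrees. -/

set_option autoImplicit false

namespace Pool.Agent.Results.MP_d57ee4_lc.DenseLinear

open Pool.Agent.X43.BF

/-- `A ≤₁ B`: one-one reducibility. -/
def LeOne (A B : Set ℕ) : Prop :=
  ∃ f : ℕ → ℕ, Computable f ∧ Function.Injective f ∧ ∀ x, x ∈ A ↔ f x ∈ B

/-- `A ≤_bfin B`: bounded finite-one reducibility. -/
def LeBfin (A B : Set ℕ) : Prop :=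
  ∃ f : ℕ → ℕ, Computable f ∧ (∃ c : ℕ, ∀ y, (f ⁻¹' {y}).encard ≤ c) ∧ ∀ x, x ∈ A ↔ f x ∈ B

/-- `deg_bfin(A)`: the sets that are bounded finite-one equivalent to `A`. -/
def bfinDegree (A : Set ℕ) : Set (Set ℕ) := {B | LeBfin B A ∧ LeBfin A B}

/-- The one-one degrees in `deg_bfin(A)`, ordered by `≤₁`, form a linear order that is dense and
has at least two elements. -/
def ConsistsOfDenseLinearOrder (A : Set ℕ) : Prop :=
  (∀ B ∈ bfinDegree A, ∀ C ∈ bfinDegree A, LeOne B C ∨ LeOne C B) ∧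
  (∀ B ∈ bfinDegree A, ∀ C ∈ bfinDegree A, LeOne B C → ¬ LeOne C B →
    ∃ E ∈ bfinDegree A, LeOne B E ∧ ¬ LeOne E B ∧ LeOne E C ∧ ¬ LeOne C E) ∧
  ∃ B ∈ bfinDegree A, ∃ C ∈ bfinDegree A, ¬ LeOne C B

theorem bo_iff (f : ℕ → ℕ) : BO f ↔ ∃ c : ℕ, ∀ y, (f ⁻¹' {y}).encard ≤ c := by
  constructor
  · intro h
    obtain ⟨c, hc⟩ := h
    refine ⟨c, fun y => ?_⟩
    have hfin : (f ⁻¹' {y}).Finite := BO.fib_finite ⟨c, hc⟩ y
    rw [hfin.encard_eq_coe_toFinset_card]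
    have := hc y hfin.toFinset fun z hz => by simpa using hz
    exact_mod_cast this
  · rintro ⟨c, hc⟩
    refine ⟨c, fun y Y hY => ?_⟩
    have h1 : (Y : Set ℕ) ⊆ f ⁻¹' {y} := fun z hz => hY z hz
    have h2 := (Set.encard_le_encard h1).trans (hc y)
    rw [Set.encard_coe_eq_coe_finsetCard] at h2
    exact_mod_cast h2

theorem leBfin_iff (A B : Set ℕ) : LeBfin A B ↔ RedB A B := by
  unfold LeBfin RedB
  refine exists_congr fun f => and_congr_right fun _ => and_congr_left fun _ => ?_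
  exact (bo_iff f).symm

/-- There is a set whose bounded finite-one degree consists exactly of a dense linearly ordered
set of one-one degrees (with at least two elements). -/
theorem result : ∃ A : Set ℕ, ConsistsOfDenseLinearOrder A := by
  obtain ⟨A, h1, h2, B, C, b1, b2, b3, b4, b5⟩ := X43.BF.main
  refine ⟨A, ?_, ?_, B, ⟨(leBfin_iff _ _).2 b1, (leBfin_iff _ _).2 b2⟩, C,
    ⟨(leBfin_iff _ _).2 b3, (leBfin_iff _ _).2 b4⟩, b5⟩
  · rintro B ⟨hB1, hB2⟩ C ⟨hC1, hC2⟩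
    exact h1 B C ((leBfin_iff _ _).1 hB1) ((leBfin_iff _ _).1 hB2) ((leBfin_iff _ _).1 hC1)
      ((leBfin_iff _ _).1 hC2)
  · rintro B ⟨hB1, hB2⟩ C ⟨hC1, hC2⟩ hBC hCB
    obtain ⟨E, e1, e2, e3⟩ := h2 B C ((leBfin_iff _ _).1 hB1) ((leBfin_iff _ _).1 hB2)
      ((leBfin_iff _ _).1 hC1) ((leBfin_iff _ _).1 hC2) hBC hCB
    exact ⟨E, ⟨(leBfin_iff _ _).2 e1, (leBfin_iff _ _).2 e2⟩, e3⟩

end Pool.Agent.Results.MP_d57ee4_lc.DenseLinear
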